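import Pool.Agent.Q28.LS.Chars
import Pool.Agent.Q28.LS.Heights
import Pool.Agent.Q28.LS.Sat
import Pool.Agent.Q12.GS.Defs

/-!
# `L_S(s, π, ρ)` for `GSp(2n)` beyond the half-plane of convergence: almost all twists and heights

`L_S(s, π, ρ)` is the Euler product of the problem, `n` and `ρ` arbitrary, `|eigenvalues of ρ(A_p)| ≤ p^θ`
(`θ = 0` for tempered `π`), so that it converges absolutely for `Re s > 1 + θ`.  A meromorphic continuation
to `Re s > θ + 1/2` is not known in general, and nothing of the kind is assumed.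

Let `P_x(s, χ)` be the Euler product of the twist by a Dirichlet character `χ`, truncated at `p ≤ x`.  If
the continuations predicted by the problem exist, and are of finite order and without zeros and poles for
`Re s > θ + 1/2`, then the `P_x(s, χ)` of all lengths `x ≥ (log Q)^A`, `A > 1/ε`, agree up to a factor
`1 + O(x^(-δ))` in `Re s ≥ θ + 1/2 + ε`.  The theorem proves this agreement unconditionally, for every
`A > 1/(2ε)`, for the lengths up to `Q²` and all primitive characters of conductor at most `Q` outside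
`Q^(2 - δ)` exceptions, and in the same way at almost all heights `Im s ≤ T` for the lengths up to `T`.
The constants depend only on the degree of `ρ`; automorphy is not used.

The proof (`Pool.Agent.Q28.LS`) is through the large sieve inequality for powers of sums over primes in
short intervals and a maximal inequality.
-/

set_option autoImplicit false

namespace Pool.Agent.Results.MP_eea520_nt.AlmostAllTwistsAndHeights

open NumberField IsDedekindDomain
open Pool.Agent.Q12.GS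

/-- The eigenvalues of `ρ(A_p)`, `p ∉ S`, have absolute value at most `p^θ`. -/
def Bounded (D : Datum) (θ : ℝ) : Prop :=
  ∀ p : Nat.Primes, p ∉ D.S → ∀ z : ℂ, (D.mat p).charpoly.IsRoot z → ‖z‖ ≤ ((p : ℕ) : ℝ) ^ θ

/-- The truncation of `L_S(s, π ⊗ c, ρ)` at `x`: the (finite) product over the primes `p ≤ x`, `p ∉ S`, of
`det (1 - ρ(A_p) c(p) p^{-s})⁻¹`. -/
noncomputable def truncated (c : ℕ → ℂ) (D : Datum) (x : ℝ) (s : ℂ) : ℂ :=
  ∏ᶠ (p : Nat.Primes) (_ : p ∉ D.S ∧ ((p : ℕ) : ℝ) ≤ x),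
    (Matrix.det (1 - (c p * ((p : ℕ) : ℂ) ^ (-s)) • D.mat p))⁻¹

/-- `c` is a completely multiplicative function on the positive integers with `|c| ≤ 1`. -/
structure Multiplicative (c : ℕ → ℂ) : Prop where
  one : c 1 = 1
  mul : ∀ m n : ℕ, m ≠ 0 → n ≠ 0 → c (m * n) = c m * c n
  bound : ∀ n : ℕ, ‖c n‖ ≤ 1

/-- The character `χ` as a function on the natural numbers. -/
noncomputable def char {q : ℕ} (χ : DirichletCharacter ℂ q) : ℕ → ℂ := fun n => χ (n : ZMod q)

section

open Pool.Agent.Q28.LS (VS mem_VS zz win Good good_mat nm_rat nm_inj nm_surj)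
open Pool.Agent.H921R2.TatePole (nm below)

open scoped Classical in
/-- the matrix at a place of the rational field, zero at the places of `S` -/
noncomputable def matAt (D : Datum) (v : HeightOneSpectrum (𝓞 ℚ)) : Matrix (Fin D.m) (Fin D.m) ℂ :=
  if below v ∈ D.S then 0 else D.mat (below v)

/-- the inverse local factor -/
noncomputable def denS (D : Datum) (v : HeightOneSpectrum (𝓞 ℚ)) (z : ℂ) : ℂ :=
  (1 - z • matAt D v).det

lemma good_datum (D : Datum) {θ : ℝ} {m : ℕ} (hm : D.m ≤ m) (h : Bounded D θ) :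
    Good (2 ^ m) θ 0 (denS D) (fun v => (matAt D v).trace) := by
  have h0 : Good (2 ^ D.m) θ 0 (denS D) (fun v => (matAt D v).trace) := by
    refine good_mat (matAt D) fun v μ hμ => ?_
    unfold matAt at hμ
    split_ifs at hμ with hv
    · have h1 : μ = 0 := by
        have h2 := Polynomial.isRoot_of_mem_roots hμ
        rw [Matrix.charpoly_zero, Polynomial.IsRoot, Polynomial.eval_pow, Polynomial.eval_X] at h2
        exact eq_zero_of_pow_eq_zero h2
      rw [h1, norm_zero]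
      positivity
    · rw [nm_rat]
      exact h _ hv μ (Polynomial.isRoot_of_mem_roots hμ)
  have hc : (2 : ℝ) ^ D.m ≤ 2 ^ m := pow_le_pow_right₀ (by norm_num) hm
  exact ⟨fun v hv => (h0.tr_le v hv).trans (mul_le_mul_of_nonneg_right hc (by positivity)),
    fun v hv z hz => (h0.den_le v hv z hz).trans (mul_le_mul_of_nonneg_right hc (by positivity))⟩

/-- the primes in `[a, b)` -/
def primesIn (a b : ℕ) : Finset Nat.Primes := (Finset.Ico a b).subtype Nat.Prime

lemma mem_primesIn {a b : ℕ} {p : Nat.Primes} : p ∈ primesIn a b ↔ a ≤ (p : ℕ) ∧ (p : ℕ) < b :=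
  Finset.mem_subtype.trans Finset.mem_Ico

lemma prod_primes (a b : ℕ) (G : Nat.Primes → ℂ) :
    ∏ v ∈ VS ℚ a b, G (below v) = ∏ p ∈ primesIn a b, G p := by
  refine Finset.prod_bij (fun v _ => below v) ?_ ?_ ?_ ?_
  · intro v hv
    rw [mem_VS, nm_rat] at hv
    exact mem_primesIn.2 hv
  · intro v _ u _ h
    refine nm_inj ?_
    rw [nm_rat, nm_rat, h]
  · intro p hp
    rw [mem_primesIn] at hp
    obtain ⟨v, hv⟩ := nm_surj p.2
    refine ⟨v, mem_VS.2 (by rw [hv]; exact hp), ?_⟩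
    rw [nm_rat] at hv
    exact Subtype.ext hv
  · intro v _
    rfl

/-- the truncated product as a finite product -/
lemma truncated_eq (c : ℕ → ℂ) (D : Datum) {x : ℝ} (hx : 0 ≤ x) (s : ℂ) :
    truncated c D x s = ∏ v ∈ VS ℚ 0 (⌊x⌋₊ + 1), (denS D v (zz c s v))⁻¹ := by
  classical
  let G : Nat.Primes → ℂ := fun p =>
    (1 - (c p * ((p : ℕ) : ℂ) ^ (-s)) • (if p ∈ D.S then 0 else D.mat p)).det⁻¹
  have h1 : ∀ v ∈ VS ℚ 0 (⌊x⌋₊ + 1), (denS D v (zz c s v))⁻¹ = G (below v) := by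
    intro v _
    simp only [G, denS, matAt, zz, nm_rat]
  rw [Finset.prod_congr rfl h1, prod_primes]
  unfold truncated
  have h2 : ∀ p : Nat.Primes, (∏ᶠ (_ : p ∉ D.S ∧ ((p : ℕ) : ℝ) ≤ x),
      (Matrix.det (1 - (c p * ((p : ℕ) : ℂ) ^ (-s)) • D.mat p))⁻¹) =
      ∏ᶠ (_ : p ∈ primesIn 0 (⌊x⌋₊ + 1)), G p := by
    intro p
    have h3 : p ∈ primesIn 0 (⌊x⌋₊ + 1) ↔ ((p : ℕ) : ℝ) ≤ x := by
      rw [mem_primesIn, ← Nat.le_floor_iff hx]
      omega
    by_cases hS : p ∈ D.S
    · rw [finprod_eq_if, finprod_eq_if, if_neg (fun h => h.1 hS)]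
      simp [G, hS]
    · by_cases hp : ((p : ℕ) : ℝ) ≤ x
      · rw [finprod_eq_if, finprod_eq_if, if_pos ⟨hS, hp⟩, if_pos (h3.2 hp)]
        simp [G, hS]
      · rw [finprod_eq_if, finprod_eq_if, if_neg (fun h => hp h.2), if_neg (fun h => hp (h3.1 h))]
  rw [finprod_congr h2, finprod_mem_finset_eq_prod]

lemma truncated_mul (c : ℕ → ℂ) (D : Datum) {x y : ℝ} (hx : 0 ≤ x) (hxy : x ≤ y) (s : ℂ) :
    truncated c D y s = truncated c D x s * win (denS D) c x y s := by
  classical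
  rw [truncated_eq c D hx, truncated_eq c D (hx.trans hxy)]
  unfold win
  have hfl := Nat.floor_le_floor hxy
  rw [← Finset.prod_union]
  · refine Finset.prod_congr ?_ fun _ _ => rfl
    ext v
    rw [Finset.mem_union, mem_VS, mem_VS, mem_VS]
    omega
  · rw [Finset.disjoint_left]
    intro v hv hv2
    rw [mem_VS] at hv hv2
    omega

/-- from the quotient to the truncated products -/
lemma close_of (c : ℕ → ℂ) (D : Datum) {x y η : ℝ} (hx : 0 ≤ x) (hxy : x ≤ y) (s : ℂ)
    (h : ‖win (denS D) c x y s - 1‖ ≤ η) :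
    ‖truncated c D y s - truncated c D x s‖ ≤ η * ‖truncated c D x s‖ := by
  have e : truncated c D y s - truncated c D x s =
      (win (denS D) c x y s - 1) * truncated c D x s := by
    rw [truncated_mul c D hx hxy s]; ring
  rw [e, norm_mul]
  exact mul_le_mul_of_nonneg_right h (norm_nonneg _)

end

/-- **Almost all twists and almost all heights beyond the half-plane of convergence.**  For `ε > 0` and
`A > 1/(2ε)` there is `δ > 0`, and for every `m` there is `N`, such that for all the Euler products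
`L_S(s, π, ρ)` with `ρ` of degree at most `m` (any `n`, `S`) and all `θ` with
`|eigenvalues of ρ(A_p)| ≤ p^θ`, `p ∉ S`:

1. let `Q ≥ N`; for all primitive Dirichlet characters `χ` of conductor at most `Q` with at most
  `Q^(2 - δ)` exceptions, for all `x ≤ y` between `(log Q)^A` and `Q²` and all `s` with
  `Re s ≥ θ + 1/2 + ε` and `|Im s| ≤ Q^δ`, the truncations of the twist by `χ` satisfy
  `|P_y(s) - P_x(s)| ≤ x^(-δ) |P_x(s)|`;
2. let `c` be completely multiplicative with `|c| ≤ 1` and `T ≥ N`; for all integers `0 ≤ k < T` with at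
  most `T^(1 - δ)` exceptions, for all `x ≤ y` between `(log T)^A` and `T` and all `s` with
  `Re s ≥ θ + 1/2 + ε` and `|Im s - k| ≤ 1`, the truncations of the twist by `c` satisfy the same
  inequality. -/
theorem result (ε A : ℝ) (hε : 0 < ε) (hA : 1 / (2 * ε) < A) :
    ∃ δ : ℝ, 0 < δ ∧ ∀ m : ℕ, ∃ N : ℕ, ∀ (D : Datum) (θ : ℝ), D.m ≤ m → Bounded D θ →
      (∀ Q : ℕ, N ≤ Q →
        ∃ 𝓔 : Finset (Σ q : ℕ, DirichletCharacter ℂ q), (𝓔.card : ℝ) ≤ (Q : ℝ) ^ (2 - δ) ∧
          ∀ (q : ℕ) (χ : DirichletCharacter ℂ q), 1 ≤ q → q ≤ Q → χ.IsPrimitive → ⟨q, χ⟩ ∉ 𝓔 →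
            ∀ x y : ℝ, (Real.log Q) ^ A ≤ x → x ≤ y → y ≤ (Q : ℝ) ^ 2 →
              ∀ s : ℂ, θ + 1 / 2 + ε ≤ s.re → |s.im| ≤ (Q : ℝ) ^ δ →
                ‖truncated (char χ) D y s - truncated (char χ) D x s‖ ≤
                  x ^ (-δ) * ‖truncated (char χ) D x s‖) ∧
      (∀ c : ℕ → ℂ, Multiplicative c → ∀ T : ℕ, N ≤ T →
        ∃ 𝓔 : Finset ℕ, (𝓔.card : ℝ) ≤ (T : ℝ) ^ (1 - δ) ∧
          ∀ k : ℕ, k < T → k ∉ 𝓔 → ∀ x y : ℝ, (Real.log T) ^ A ≤ x → x ≤ y → y ≤ T →
            ∀ s : ℂ, θ + 1 / 2 + ε ≤ s.re → |s.im - k| ≤ 1 →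
              ‖truncated c D y s - truncated c D x s‖ ≤ x ^ (-δ) * ‖truncated c D x s‖) := by
  classical
  have hA1 : 1 < 2 * ε * A := by
    rw [div_lt_iff₀ (by positivity)] at hA
    linarith
  obtain ⟨δ₁, hδ₁, H₁⟩ := Pool.Agent.Q28.LS.twists ε A hε hA1
  obtain ⟨δ₂, hδ₂, H₂⟩ := Pool.Agent.Q28.LS.heights ε A hε hA1
  refine ⟨min δ₁ δ₂, lt_min hδ₁ hδ₂, fun m => ?_⟩
  obtain ⟨Q₀, hQ₀⟩ := H₁ (2 ^ m) 1 0 (one_le_pow₀ (by norm_num))
  obtain ⟨T₀, hT₀⟩ := H₂ (2 ^ m) 1 0 (one_le_pow₀ (by norm_num))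
  have hlogs : ∀ᶠ M : ℕ in Filter.atTop, (1 : ℝ) ≤ Real.log M := by
    have := Real.tendsto_log_atTop.comp (tendsto_natCast_atTop_atTop (R := ℝ))
    exact this.eventually_ge_atTop 1
  obtain ⟨M₀, hM₀⟩ := Filter.eventually_atTop.1 hlogs
  have hA0 : 0 < A := lt_trans (by positivity) hA
  refine ⟨max (max Q₀ T₀) (max M₀ 1), fun D θ hm hb => ⟨fun Q hQ => ?_, fun c hc T hT => ?_⟩⟩
  · have hQ1 : 1 ≤ Q := (le_max_right _ _).trans ((le_max_right _ _).trans hQ)
    have hQ1' : (1 : ℝ) ≤ Q := by exact_mod_cast hQ1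
    have hlog := hM₀ Q ((le_max_left _ _).trans ((le_max_right _ _).trans hQ))
    have h1 := hQ₀ Q ((le_max_left _ _).trans ((le_max_left _ _).trans hQ)) ℚ
      (by rw [Module.finrank_self]) θ _ _ (good_datum D hm hb)
    refine ⟨_, h1.trans (Real.rpow_le_rpow_of_exponent_le hQ1' (by linarith [min_le_left δ₁ δ₂])),
      fun q χ hq hqQ hχ hne x y hx hxy hyQ s hs hst => ?_⟩
    have h2 : (⟨q, χ⟩ : Σ q : ℕ, DirichletCharacter ℂ q) ∈ Pool.Agent.Q28.LS.prims Q :=
      Pool.Agent.Q28.LS.mem_prims.2 ⟨⟨hq, hqQ⟩, hχ⟩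
    rw [Finset.mem_filter, not_and, not_not] at hne
    have h3 := hne h2 x y hx hxy hyQ s hs
      (hst.trans (Real.rpow_le_rpow_of_exponent_le hQ1' (min_le_left δ₁ δ₂)))
    have hx1 : 1 ≤ x := (Real.one_le_rpow hlog hA0.le).trans hx
    have h4 := close_of (char χ) D (by linarith) hxy s h3
    refine h4.trans (mul_le_mul_of_nonneg_right ?_ (norm_nonneg _))
    exact Real.rpow_le_rpow_of_exponent_le hx1 (by linarith [min_le_left δ₁ δ₂])
  · have hT1 : 1 ≤ T := (le_max_right _ _).trans ((le_max_right _ _).trans hT)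
    have hT1' : (1 : ℝ) ≤ T := by exact_mod_cast hT1
    have hlog := hM₀ T ((le_max_left _ _).trans ((le_max_right _ _).trans hT))
    have h1 := hT₀ T ((le_max_right _ _).trans ((le_max_left _ _).trans hT)) c
      ⟨hc.one, hc.mul, hc.bound⟩ ℚ (by rw [Module.finrank_self]) θ _ _ (good_datum D hm hb)
    refine ⟨_, h1.trans (Real.rpow_le_rpow_of_exponent_le hT1' (by linarith [min_le_right δ₁ δ₂])),
      fun k hk hne x y hx hxy hyT s hs hst => ?_⟩
    rw [Finset.mem_filter, not_and, not_not] at hne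
    have h3 := hne (Finset.mem_range.2 hk) x y hx hxy hyT s hs hst
    have hx1 : 1 ≤ x := (Real.one_le_rpow hlog hA0.le).trans hx
    have h4 := close_of c D (by linarith) hxy s h3
    refine h4.trans (mul_le_mul_of_nonneg_right ?_ (norm_nonneg _))
    exact Real.rpow_le_rpow_of_exponent_le hx1 (by linarith [min_le_right δ₁ δ₂])

end Pool.Agent.Results.MP_eea520_nt.AlmostAllTwistsAndHeights
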