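import Pool.Agent.Q45.CT.Forms
import Pool.Agent.Q12.GS.Defs

/-!
# Analytic continuation of L-functions for GSp(2n): bounded means

Let `L(s) = ∏_j L_{S_j}(s, π_j, ρ_j)^{e_j}` be a finite product of integral powers of the Euler products of the problem
(any `n_j`, any finite dimensional `ρ_j`; for example one of them), where the eigenvalues of `ρ_j(A_{j,p})` have absolute
value at most `p^θ`, `p ∉ S_j`. NOTHING is assumed on the `L_j` outside of the half-plane `Re s > σ₀ = θ + 1` of absolute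
convergence; in particular no continuation is assumed. The means

`S_T(s) = ∑_j e_j ∑_{p ∉ S_j, k ≥ 1} tr ρ_j(A_{j,p})^k / (k p^{ks} Γ(1 + k log p / T))`, `T > 0`,

converge absolutely for EVERY complex `s`. With `C_T(z) = ∑_{k ≥ 1} e^{-khz} / (k Γ(1 + kh/T))`, `h = 1/(R+1)`, also entire,
the following are equivalent:

* `L` extends to a meromorphic function on `ℂ`;
* for every `R > 0` there are finitely many `u` with `Re u ≤ σ₀`, integers `n(u)` and ONE sequence `T → ∞` such that the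
  real part of `S_T(s) + ∑_u n(u) C_T(s - u)` is bounded ABOVE on the square `|Re s|, |Im s| ≤ R` for the `T` of the
  sequence;
* the same with a bound for the absolute value and all large `T`.

In this case the `u` and `n(u)` give the zeros and poles of the continuation in the open square with their orders. `L` is
entire if and only if `n(u) ≥ 0` is possible, and `L` continues without zeros and poles to an open set `D` with
`D + [0, ∞) ⊆ D` if and only if the `Re S_T` are locally bounded above on `D` along one sequence without any corrections.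
-/

set_option autoImplicit false

namespace Pool.Agent.Results.MP_eea520_nt.BoundedMeans

open Complex Filter Topology Set
open Pool.Agent.Q12.GS Pool.Agent.Q45.CT Pool.Agent.Q45.ML

open scoped Classical in
/-- `tr ρ(A_p)^k`, the sum of the `k`-th powers of the eigenvalues of `ρ(A_p)`, and `0` for `p ∈ S`. -/
noncomputable def trace (D : Datum) (p : Nat.Primes) (k : ℕ) : ℂ :=
  if p ∈ D.S then 0 else ((D.mat p).charpoly.roots.map fun z => z ^ k).sum

/-- The eigenvalues of `ρ(A_p)`, `p ∉ S`, have absolute value at most `p^θ`. -/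
def EigBound (D : Datum) (θ : ℝ) : Prop :=
  ∀ p : Nat.Primes, p ∉ D.S → ∀ z : ℂ, (D.mat p).charpoly.IsRoot z → ‖z‖ ≤ ((p : ℕ) : ℝ) ^ θ

/-- the mean of one Euler product: `∑_{p ∉ S, k ≥ 1} tr ρ(A_p)^k / (k p^{ks} Γ(1 + k log p / T))`, `k = x.2 + 1` -/
noncomputable def mean (D : Datum) (T : ℝ) (s : ℂ) : ℂ :=
  ∑' x : Nat.Primes × ℕ, trace D x.1 (x.2 + 1) / (((x.2 : ℂ) + 1) * ((x.1 : ℕ) : ℂ) ^ (((x.2 : ℂ) + 1) * s) *
    (Real.Gamma (1 + ((x.2 : ℝ) + 1) * Real.log ((x.1 : ℕ) : ℝ) / T) : ℂ))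

/-- `S_T(s)`, the mean of the product -/
noncomputable def totalMean {ι : Type} [Fintype ι] (D : ι → Datum) (e : ι → ℤ) (T : ℝ) (s : ℂ) : ℂ :=
  ∑ j, (e j : ℂ) * mean (D j) T s

/-- `L(s) = ∏_j L_{S_j}(s, π_j, ρ_j)^{e_j}` -/
noncomputable def totalL {ι : Type} [Fintype ι] (D : ι → Datum) (e : ι → ℤ) (s : ℂ) : ℂ :=
  ∏ j, (D j).LFun s ^ e j

/-! ### translation -/

/-- the eigenvalues as a family (follows `Pool.Agent.Q12.GS.exists_eig`, helper12) -/
theorem exists_eig {m : ℕ} (B : Matrix (Fin m) (Fin m) ℂ) : ∃ α : Fin m → ℂ, (∀ i, B.charpoly.IsRoot (α i)) ∧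
    (∀ z : ℂ, z ≠ 0 → Matrix.det (1 - z • B) = ∏ i, (1 - α i * z)) ∧
    ∀ g : ℂ → ℂ, ∑ i, g (α i) = (B.charpoly.roots.map g).sum := by
  classical
  have hs := IsAlgClosed.splits B.charpoly
  have hcard : B.charpoly.roots.card = m := by
    rw [← hs.natDegree_eq_card_roots, Matrix.charpoly_natDegree_eq_dim, Fintype.card_fin]
  have hprod : B.charpoly = (B.charpoly.roots.map fun a => Polynomial.X - Polynomial.C a).prod :=
    hs.eq_prod_roots_of_monic B.charpoly_monic
  set l : List ℂ := B.charpoly.roots.toList with hl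
  have hlen : l.length = m := by rw [hl, Multiset.length_toList, hcard]
  refine ⟨fun i => l.get (i.cast hlen.symm), fun i => ?_, fun z hz => ?_, fun g => ?_⟩
  · have h1 : l.get (i.cast hlen.symm) ∈ l := List.get_mem l _
    exact (Polynomial.mem_roots'.1 (Multiset.mem_toList.1 h1)).2
  · have h1 : (1 : Matrix (Fin m) (Fin m) ℂ) - z • B = z • (Matrix.scalar (Fin m) z⁻¹ - B) := by
      rw [smul_sub]
      congr 1
      rw [Matrix.scalar_apply, ← Matrix.diagonal_one, ← Matrix.diagonal_smul]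
      congr 1
      funext i
      simp [hz]
    have h2 : (Matrix.scalar (Fin m) z⁻¹ - B).det = B.charpoly.eval z⁻¹ := by
      rw [Matrix.eval_charpoly]
    rw [h1, Matrix.det_smul, h2, Fintype.card_fin]
    have h3 : B.charpoly.eval z⁻¹ = ∏ i : Fin m, (z⁻¹ - l.get (i.cast hlen.symm)) := by
      conv_lhs => rw [hprod]
      rw [Polynomial.eval_multiset_prod, Multiset.map_map]
      have h4 : B.charpoly.roots = (l : Multiset ℂ) := (Multiset.coe_toList _).symm
      rw [h4, Multiset.map_coe, Multiset.prod_coe, ← List.prod_ofFn]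
      congr 1
      refine List.ext_get ?_ ?_
      · simp [hlen]
      · intro k h5 h6
        simp
    have h7 : z ^ m = ∏ _i : Fin m, z := by rw [Finset.prod_const, Finset.card_univ, Fintype.card_fin]
    rw [h3, h7, ← Finset.prod_mul_distrib]
    refine Finset.prod_congr rfl fun i _ => ?_
    rw [mul_sub, mul_inv_cancel₀ hz]
    ring
  · have h4 : B.charpoly.roots = (l : Multiset ℂ) := (Multiset.coe_toList _).symm
    rw [h4, Multiset.map_coe, Multiset.sum_coe, ← List.sum_ofFn]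
    congr 1
    refine List.ext_get ?_ ?_
    · simp [hlen]
    · intro k h5 h6
      simp

open scoped Classical in
/-- the eigenvalues at `p`, with `0` for `p` in `S` -/
noncomputable def al (D : Datum) (p : Nat.Primes) : Fin D.m → ℂ :=
  if p ∈ D.S then 0 else (exists_eig (D.mat p)).choose

/-- the norms of the primes -/
noncomputable def qq (p : Nat.Primes) : ℝ := ((p : ℕ) : ℝ)

theorem al_norm {D : Datum} {θ : ℝ} (hD : EigBound D θ) (p : Nat.Primes) (i : Fin D.m) :
    ‖al D p i‖ ≤ qq p ^ θ := by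
  classical
  unfold al
  split_ifs with h
  · simp only [Pi.zero_apply, norm_zero]
    exact Real.rpow_nonneg (Nat.cast_nonneg _) _
  · exact hD p h _ ((exists_eig (D.mat p)).choose_spec.1 i)

theorem al_trace (D : Datum) (p : Nat.Primes) (k : ℕ) :
    ∑ i, al D p i ^ (k + 1) = trace D p (k + 1) := by
  classical
  unfold al trace
  split_ifs with h
  · simp
  · exact (exists_eig (D.mat p)).choose_spec.2.2 fun z => z ^ (k + 1)

theorem eulD {D : Datum} {θ : ℝ} (hD : EigBound D θ) : Pool.Agent.Q45.ML.Eul D.m qq (al D) θ 1 where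
  d_nonneg := zero_le_one
  two_le := fun p => by unfold qq; exact_mod_cast p.2.two_le
  sum := fun σ hσ => Nat.Primes.summable_rpow.2 (by linarith)
  bound := al_norm hD

theorem mean_eq (D : Datum) : mean D = emean qq (al D) := by
  funext T s
  unfold mean emean
  refine tsum_congr fun x => ?_
  rw [al_trace]
  unfold qq
  push_cast
  rfl

theorem LFun_eq {D : Datum} {θ : ℝ} (hD : EigBound D θ) {s : ℂ} (hs : θ + 1 < s.re) :
    D.LFun s = exp (gser (fq qq) (ca (al D)) s) := by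
  classical
  have h1 := eul_exp (eulD hD) hs
  have hc : ∀ p : Nat.Primes, ((qq p : ℝ) : ℂ) = ((p : ℕ) : ℂ) := fun p => by unfold qq; push_cast; rfl
  have h2 : ∀ p : Nat.Primes, p ∈ D.S → ∏ i, (1 - al D p i * ((qq p : ℝ) : ℂ) ^ (-s))⁻¹ = 1 := by
    intro p hp
    refine Finset.prod_eq_one fun i _ => ?_
    unfold al
    rw [if_pos hp]
    simp
  have h3 : ∀ p : Nat.Primes, p ∉ D.S → ∏ i, (1 - al D p i * ((qq p : ℝ) : ℂ) ^ (-s))⁻¹ =
      (Matrix.det (1 - (((p : ℕ) : ℂ) ^ (-s)) • D.mat p))⁻¹ := by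
    intro p hp
    have hp0 : ((p : ℕ) : ℂ) ≠ 0 := by exact_mod_cast p.2.pos.ne'
    have hz : ((p : ℕ) : ℂ) ^ (-s) ≠ 0 := by
      rw [Complex.cpow_def_of_ne_zero hp0]
      exact Complex.exp_ne_zero _
    rw [(exists_eig (D.mat p)).choose_spec.2.1 _ hz, Finset.prod_inv_distrib, hc]
    congr 1
    refine Finset.prod_congr rfl fun i _ => ?_
    unfold al
    rw [if_neg hp]
  have h4 : Function.Injective (fun v : {p : Nat.Primes // p ∉ D.S} => v.1) := Subtype.val_injective
  have h5 := (h4.hasProd_iff (f := fun p : Nat.Primes =>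
    ∏ i, (1 - al D p i * ((qq p : ℝ) : ℂ) ^ (-s))⁻¹) (fun p hp => h2 p (by
      by_contra h
      exact hp ⟨⟨p, h⟩, rfl⟩))).2 h1
  unfold Datum.LFun
  rw [← h5.tprod_eq]
  exact tprod_congr fun v => (h3 v.1 v.2).symm

variable {ι : Type} [Fintype ι]

theorem total_rep {D : ι → Datum} {θ : ℝ} (hD : ∀ j, EigBound (D j) θ) (e : ι → ℤ) :
    Rep (θ + 1) (fun s => ∑ j, (e j : ℂ) * gser (fq qq) (ca (al (D j))) s) (totalMean D e) := by
  have h := Rep.sum (σ₀ := θ + 1) (Finset.univ : Finset ι)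
    (g := fun j s => (e j : ℂ) * gser (fq qq) (ca (al (D j))) s)
    (m := fun j T s => (e j : ℂ) * emean qq (al (D j)) T s)
    fun j _ => (eul_rep (eulD (hD j))).smul (e j : ℂ)
  have e1 : totalMean D e = fun T s => ∑ j, (e j : ℂ) * emean qq (al (D j)) T s := by
    funext T s
    unfold totalMean
    simp only [mean_eq]
  rw [e1]
  exact h

theorem total_exp {D : ι → Datum} {θ : ℝ} (hD : ∀ j, EigBound (D j) θ) (e : ι → ℤ) :
    ∀ s : ℂ, θ + 1 < s.re →
      totalL D e s = exp (∑ j, (e j : ℂ) * gser (fq qq) (ca (al (D j))) s) := by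
  intro s hs
  unfold totalL
  rw [Complex.exp_sum]
  refine Finset.prod_congr rfl fun j _ => ?_
  rw [LFun_eq (hD j) hs, ← Complex.exp_int_mul]

open scoped Classical in
/-- **The criterion for the continuation of the `L`-functions of `GSp(2n)`.** -/
theorem result (ι : Type) [Fintype ι] (D : ι → Datum) (θ : ℝ) (hD : ∀ j, EigBound (D j) θ) (e : ι → ℤ) :
    List.TFAE [
      ∃ F : ℂ → ℂ, MeromorphicOn F univ ∧ ∀ s : ℂ, θ + 1 < s.re → F s = totalL D e s,
      ∀ R : ℝ, 0 < R → ∃ (Z : Finset ℂ) (n : ℂ → ℤ) (T : ℕ → ℝ),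
        BoundedAbove (totalMean D e) (θ + 1) R Z n T,
      ∀ R : ℝ, 0 < R → ∃ (Z : Finset ℂ) (n : ℂ → ℤ), BoundedOn (totalMean D e) (θ + 1) R Z n] ∧
    List.TFAE [
      ∃ F : ℂ → ℂ, Differentiable ℂ F ∧ ∀ s : ℂ, θ + 1 < s.re → F s = totalL D e s,
      ∀ R : ℝ, 0 < R → ∃ (Z : Finset ℂ) (n : ℂ → ℤ) (T : ℕ → ℝ), (∀ u ∈ Z, 0 ≤ n u) ∧
        BoundedAbove (totalMean D e) (θ + 1) R Z n T,
      ∀ R : ℝ, 0 < R → ∃ (Z : Finset ℂ) (n : ℂ → ℤ), (∀ u ∈ Z, 0 ≤ n u) ∧
        BoundedOn (totalMean D e) (θ + 1) R Z n] ∧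
    (∀ F : ℂ → ℂ, MeromorphicOn F univ → (∀ s : ℂ, θ + 1 < s.re → F s = totalL D e s) →
      ∀ R : ℝ, 0 < R → θ + 1 < R → ∀ (Z : Finset ℂ) (n : ℂ → ℤ) (T : ℕ → ℝ),
        BoundedAbove (totalMean D e) (θ + 1) R Z n T → ∀ s : ℂ, |s.re| < R → |s.im| < R →
          meromorphicOrderAt F s =
            ((∑ u ∈ Z with exp ((s - u) / (R + 1)) = 1, n u : ℤ) : WithTop ℤ)) ∧
    (∀ U : Set ℂ, IsOpen U → (∀ s ∈ U, ∀ x : ℝ, 0 ≤ x → s + x ∈ U) →
      ((∃ G : ℂ → ℂ, DifferentiableOn ℂ G U ∧ (∀ s ∈ U, G s ≠ 0) ∧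
          ∀ s ∈ U, θ + 1 < s.re → G s = totalL D e s) ↔
        ∃ T : ℕ → ℝ, Tendsto T atTop atTop ∧ ∀ s ∈ U, ∃ r > 0, ∃ M : ℝ, ∀ᶠ k : ℕ in atTop,
          ∀ w ∈ Metric.ball s r, (totalMean D e (T k) w).re ≤ M)) := by
  have H := total_rep hD e
  have hL := total_exp hD e
  exact ⟨forms_mero H hL, forms_entire H hL, forms_divisor H hL, fun U hU hUr =>
    (forms_region H hL hU hUr).out 0 2⟩

end Pool.Agent.Results.MP_eea520_nt.BoundedMeans
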