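import Pool.Agent.Q245.Me.Eul
import Pool.Agent.Q12.GS.Defs

/-!
# Analytic continuation of L-functions for GSp(2n): a criterion, with given zeros and poles

Let `L_j(s) = L_{S_j}(s, π_j, ρ_j)` be finitely many of the Euler products of the problem (any `n_j`, any finite
dimensional `ρ_j`), such that the eigenvalues of `ρ_j(A_{j,p})` have absolute value at most `1` for `p ∉ S_j` (true if
`π_j` is tempered with unitary central character), and let `e_j` be integers. NOTHING is assumed on the `L_j` outside of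
their half plane of absolute convergence `Re s > 1`. Put

`tr(p^k) = ∑_j e_j tr ρ_j(A_{j,p})^k` (the sum over the `j` with `p ∉ S_j`),

and assume that these numbers are real (for example one `π` with trivial central character, or a family which contains
with a member also its complex conjugate, with the same exponent). Let `σ ≥ 1/2` be real (the centre of the expected
functional equation or any point to the right of it), `σ ≤ τ < σ + 1/2` and

`P_σ(y) = exp (- ∑_{p^k ≤ y} tr(p^k) / (k p^{σk}))`, a finite expression in the Satake classes of the `p ≤ y`.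

Fix a finite set `Z` of complex numbers `ρ` with `Re ρ ≤ σ + 1/2` and integers `m(ρ)`, symmetric under complex
conjugation, and real numbers `r` and `A > 0`. The following are EQUIVALENT:

* `∫_e^∞ (log (A P_σ(y) / (e^γ log y)^r) - ∑_{ρ ∈ Z} m(ρ) Ein((ρ - σ) log y))² y^{-2(τ - σ)} dy/y < ∞`, where
  `Ein(w) = ∫_0^1 (e^{wt} - 1)/t dt`;
* `∏_j L_j(s)^{e_j} = A (s - σ)^r ∏_{ρ ∈ Z} ((s - ρ)/(s - σ))^{m(ρ)} exp ((s - σ) H(s))` with a function `H` in the
  Hardy space `H²` of the half plane `Re s > τ`.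

In this case `∏_j L_j^{e_j}` has a meromorphic continuation to `Re s > τ`, and its zeros and poles there are exactly the
`ρ ∈ Z` with `Re ρ > τ` and `m(ρ) ≠ 0`, with the orders `m(ρ)`; zeros and poles on the edge `Re s = 1` of absolute
convergence are allowed.
-/

set_option autoImplicit false
set_option maxHeartbeats 1000000

namespace Pool.Agent.Results.MP_eea520_nt.MeromorphicHardy

open Filter Topology Set Complex MeasureTheory
open Pool.Agent.Q12.GS

variable {ι : Type} [Fintype ι]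

open scoped Classical in
/-- `tr ρ(A_p)^k`, the sum of the `k`-th powers of the eigenvalues of `ρ(A_p)`, and `0` for `p ∈ S`. -/
noncomputable def trace (D : Datum) (p : Nat.Primes) (k : ℕ) : ℂ :=
  if p ∈ D.S then 0 else ((D.mat p).charpoly.roots.map fun z => z ^ k).sum

/-- `∑_j e_j tr ρ_j(A_{j,p})^k` -/
noncomputable def virtual (D : ι → Datum) (e : ι → ℤ) (p : Nat.Primes) (k : ℕ) : ℂ :=
  ∑ j, (e j : ℂ) * trace (D j) p k

/-- the partial product `P_σ(y)` with the (finitely many) prime powers `p^k ≤ y`, `k = x.2 + 1` -/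
noncomputable def productStar (D : ι → Datum) (e : ι → ℤ) (σ y : ℝ) : ℝ :=
  Real.exp (-∑ᶠ (x : Nat.Primes × ℕ) (_ : ((x.1 : ℕ) : ℝ) ^ (x.2 + 1) ≤ y),
    (virtual D e x.1 (x.2 + 1)).re / (((x.2 : ℝ) + 1) * (((x.1 : ℕ) : ℝ) ^ σ) ^ (x.2 + 1)))

/-- `Ein(w) = ∫_0^1 (exp (w t) - 1) / t dt`, an entire function of `w`. -/
noncomputable def Ein (w : ℂ) : ℂ := ∫ t in (0 : ℝ)..1, (exp (w * t) - 1) / t

/-- `H` belongs to the Hardy space `H²` of the half plane `Re s > τ`: it is analytic there, bounded on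
the smaller half planes, and the integrals of `|H|²` over the vertical lines are bounded. -/
structure Hardy (τ : ℝ) (H : ℂ → ℂ) : Prop where
  analytic : ∀ s : ℂ, τ < s.re → DifferentiableAt ℂ H s
  bounded : ∀ x : ℝ, τ < x → ∃ B : ℝ, ∀ s : ℂ, x ≤ s.re → ‖H s‖ ≤ B
  square : ∃ M : ℝ, ∀ x : ℝ, τ < x → ∫⁻ t : ℝ, ‖H (x + t * I)‖ₑ ^ 2 ≤ ENNReal.ofReal M

/-- The divisor `∑_{ρ ∈ Z} m(ρ) ρ` is symmetric under complex conjugation. -/
def Symmetric (Z : Finset ℂ) (m : ℂ → ℤ) : Prop :=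
  ∀ ρ ∈ Z, (starRingEnd ℂ) ρ ∈ Z ∧ m ((starRingEnd ℂ) ρ) = m ρ

/-- `log (A P_σ(y) / (e^γ log y)^r) - ∑_{ρ ∈ Z} m(ρ) Ein((ρ - σ) log y)`; the sum is real if the divisor is
symmetric. -/
noncomputable def deviation (D : ι → Datum) (e : ι → ℤ) (σ r A : ℝ) (Z : Finset ℂ) (m : ℂ → ℤ)
    (y : ℝ) : ℝ :=
  Real.log (A * productStar D e σ y / (Real.exp Real.eulerMascheroniConstant * Real.log y) ^ r) -
    ∑ ρ ∈ Z, (m ρ : ℝ) * (Ein ((ρ - σ) * Real.log y)).re

/-- `∫_e^∞ deviation(y)² y^{-2(τ - σ)} dy/y < ∞`. -/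
def SquareIntegrable (D : ι → Datum) (e : ι → ℤ) (σ τ r A : ℝ) (Z : Finset ℂ) (m : ℂ → ℤ) : Prop :=
  IntegrableOn (fun y : ℝ => deviation D e σ r A Z m y ^ 2 * y ^ (-(2 * (τ - σ))) / y)
    (Ioi (Real.exp 1))

/-- `A (s - σ)^r ∏_{ρ ∈ Z} ((s - ρ)/(s - σ))^{m(ρ)} exp ((s - σ) H(s))` -/
noncomputable def continuation (σ r A : ℝ) (Z : Finset ℂ) (m : ℂ → ℤ) (H : ℂ → ℂ) (s : ℂ) : ℂ :=
  A * (s - σ) ^ (r : ℂ) * (∏ ρ ∈ Z, ((s - ρ) / (s - σ)) ^ m ρ) * exp ((s - σ) * H s)

/-- `∏_j L_j(s)^{e_j} = F(s)` for `Re s > 1` and `Re s > σ + 1/2`. -/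
def Represents (D : ι → Datum) (e : ι → ℤ) (σ : ℝ) (F : ℂ → ℂ) : Prop :=
  ∀ s : ℂ, 1 < s.re → σ + 1 / 2 < s.re → ∏ j, (D j).LFun s ^ e j = F s

/-! ### translation -/

open Pool.Agent.Q245.Me.Eul (PS LG lser ex ex_summ ex_prod tr_le)

/-- the eigenvalues as a family (follows `Pool.Agent.Q12.GS.exists_eig`, helper12) -/
theorem exists_eig {m : ℕ} (B : Matrix (Fin m) (Fin m) ℂ) : ∃ α : Fin m → ℂ, (∀ i, B.charpoly.IsRoot (α i)) ∧
    (∀ z : ℂ, z ≠ 0 → Matrix.det (1 - z • B) = ∏ i, (1 - α i * z)) ∧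
    ∀ g : ℂ → ℂ, ∑ i, g (α i) = (B.charpoly.roots.map g).sum := by
  classical
  have hs := IsAlgClosed.splits B.charpoly
  have hcard : B.charpoly.roots.card = m := by
    rw [← hs.natDegree_eq_card_roots, Matrix.charpoly_natDegree_eq_dim, Fintype.card_fin]
  have hprod : B.charpoly = (B.charpoly.roots.map fun a => Polynomial.X - Polynomial.C a).prod :=
    hs.eq_prod_roots_of_monic B.charpoly_monic
  set l : List ℂ := B.charpoly.roots.toList with hl
  have hlen : l.length = m := by rw [hl, Multiset.length_toList, hcard]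
  refine ⟨fun i => l.get (i.cast hlen.symm), fun i => ?_, fun z hz => ?_, fun g => ?_⟩
  · have h1 : l.get (i.cast hlen.symm) ∈ l := List.get_mem l _
    exact (Polynomial.mem_roots'.1 (Multiset.mem_toList.1 h1)).2
  · have h1 : (1 : Matrix (Fin m) (Fin m) ℂ) - z • B = z • (Matrix.scalar (Fin m) z⁻¹ - B) := by
      rw [smul_sub]
      congr 1
      rw [Matrix.scalar_apply, ← Matrix.diagonal_one, ← Matrix.diagonal_smul]
      congr 1
      funext i
      simp [hz]
    have h2 : (Matrix.scalar (Fin m) z⁻¹ - B).det = B.charpoly.eval z⁻¹ := by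
      rw [Matrix.eval_charpoly]
    rw [h1, Matrix.det_smul, h2, Fintype.card_fin]
    have h3 : B.charpoly.eval z⁻¹ = ∏ i : Fin m, (z⁻¹ - l.get (i.cast hlen.symm)) := by
      conv_lhs => rw [hprod]
      rw [Polynomial.eval_multiset_prod, Multiset.map_map]
      have h4 : B.charpoly.roots = (l : Multiset ℂ) := (Multiset.coe_toList _).symm
      rw [h4, Multiset.map_coe, Multiset.prod_coe, ← List.prod_ofFn]
      congr 1
      refine List.ext_get ?_ ?_
      · simp [hlen]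
      · intro k h5 h6
        simp
    have h7 : z ^ m = ∏ _i : Fin m, z := by rw [Finset.prod_const, Finset.card_univ, Fintype.card_fin]
    rw [h3, h7, ← Finset.prod_mul_distrib]
    refine Finset.prod_congr rfl fun i _ => ?_
    rw [mul_sub, mul_inv_cancel₀ hz]
    ring
  · have h4 : B.charpoly.roots = (l : Multiset ℂ) := (Multiset.coe_toList _).symm
    rw [h4, Multiset.map_coe, Multiset.sum_coe, ← List.sum_ofFn]
    congr 1
    refine List.ext_get ?_ ?_
    · simp [hlen]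
    · intro k h5 h6
      simp

open scoped Classical in
/-- the roots at `p`, with `0` for `p` in `S` -/
noncomputable def al (D : Datum) (p : Nat.Primes) : Fin D.m → ℂ :=
  if p ∈ D.S then 0 else (exists_eig (D.mat p)).choose

theorem al_norm {D : Datum} (hD : D.Tempered) (p : Nat.Primes) (i : Fin D.m) : ‖al D p i‖ ≤ 1 := by
  classical
  unfold al
  split_ifs with h
  · simp
  · exact hD p h _ ((exists_eig (D.mat p)).choose_spec.1 i)

theorem al_trace (D : Datum) (p : Nat.Primes) (k : ℕ) :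
    ∑ i, al D p i ^ (k + 1) = trace D p (k + 1) := by
  classical
  unfold al trace
  split_ifs with h
  · simp
  · exact (exists_eig (D.mat p)).choose_spec.2.2 fun z => z ^ (k + 1)

theorem psP : PS (fun p : Nat.Primes => ((p : ℕ) : ℝ)) where
  cnt := inferInstance
  two_le := fun p => by exact_mod_cast p.2.two_le
  summ := fun σ hσ => Nat.Primes.summable_rpow.2 (by linarith)

theorem cexp_log (p : Nat.Primes) (s : ℂ) : cexp (-(s * Real.log ((p : ℕ) : ℝ))) = ((p : ℕ) : ℂ) ^ (-s) := by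
  have hn0 : (0 : ℝ) < ((p : ℕ) : ℝ) := by exact_mod_cast p.2.pos
  have hnc : ((p : ℕ) : ℂ) ≠ 0 := by exact_mod_cast hn0.ne'
  rw [Complex.cpow_def_of_ne_zero hnc, ← Complex.ofReal_natCast, ← Complex.ofReal_log hn0.le]
  congr 1
  ring

theorem LFun_exp {D : Datum} (hD : D.Tempered) {s : ℂ} (hs : 1 < s.re) :
    D.LFun s = cexp (ex (fun p : Nat.Primes => ((p : ℕ) : ℝ)) (al D) s) := by
  classical
  have h1 := ex_prod psP (al_norm hD) hs
  have h2 : ∀ p : Nat.Primes, p ∈ D.S → ∏ i, (1 - al D p i * cexp (-(s * Real.log ((p : ℕ) : ℝ))))⁻¹ = 1 := by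
    intro p hp
    refine Finset.prod_eq_one fun i _ => ?_
    unfold al
    rw [if_pos hp]
    simp
  have h3 : ∀ p : Nat.Primes, p ∉ D.S → ∏ i, (1 - al D p i * cexp (-(s * Real.log ((p : ℕ) : ℝ))))⁻¹ =
      (Matrix.det (1 - (((p : ℕ) : ℂ) ^ (-s)) • D.mat p))⁻¹ := by
    intro p hp
    have hz : ((p : ℕ) : ℂ) ^ (-s) ≠ 0 := by
      rw [← cexp_log]
      exact Complex.exp_ne_zero _
    rw [(exists_eig (D.mat p)).choose_spec.2.1 _ hz, Finset.prod_inv_distrib, cexp_log]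
    congr 1
    refine Finset.prod_congr rfl fun i _ => ?_
    unfold al
    rw [if_neg hp]
  have h4 : Function.Injective (fun v : {p : Nat.Primes // p ∉ D.S} => v.1) := Subtype.val_injective
  have h5 := (h4.hasProd_iff (f := fun p : Nat.Primes =>
    ∏ i, (1 - al D p i * cexp (-(s * Real.log ((p : ℕ) : ℝ))))⁻¹) (fun p hp => h2 p (by
      by_contra h
      exact hp ⟨⟨p, h⟩, rfl⟩))).2 h1
  unfold Datum.LFun
  rw [← h5.tprod_eq]
  exact tprod_congr fun v => (h3 v.1 v.2).symm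

/-- the real coefficients -/
noncomputable def bb (D : ι → Datum) (e : ι → ℤ) (p : Nat.Primes) (k : ℕ) : ℝ :=
  if k = 0 then 0 else (virtual D e p k).re

theorem bb_le {D : ι → Datum} (hD : ∀ j, (D j).Tempered) (e : ι → ℤ) (p : Nat.Primes) (k : ℕ) :
    |bb D e p k| ≤ ∑ j, |(e j : ℝ)| * (D j).m := by
  have h0 : (0 : ℝ) ≤ ∑ j, |(e j : ℝ)| * (D j).m := Finset.sum_nonneg fun j _ => by positivity
  unfold bb
  split_ifs with h
  · simpa using h0
  · obtain ⟨n, rfl⟩ := Nat.exists_eq_succ_of_ne_zero h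
    refine (Complex.abs_re_le_norm _).trans ?_
    unfold virtual
    refine (norm_sum_le _ _).trans (Finset.sum_le_sum fun j _ => ?_)
    rw [norm_mul, ← al_trace]
    have h1 : ‖((e j : ℤ) : ℂ)‖ = |(e j : ℝ)| := by
      rw [← Complex.ofReal_intCast, Complex.norm_real, Real.norm_eq_abs]
    rw [h1]
    exact mul_le_mul_of_nonneg_left (tr_le (al_norm (hD j)) p _) (abs_nonneg _)

theorem prod_exp {D : ι → Datum} (hD : ∀ j, (D j).Tempered) {e : ι → ℤ}
    (hr : ∀ p k, (virtual D e p (k + 1)).im = 0) {s : ℂ} (hs : 1 < s.re) :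
    ∏ j, (D j).LFun s ^ e j = exp (lser (fun p : Nat.Primes => ((p : ℕ) : ℝ)) (bb D e) s) := by
  have h1 : ∀ j, (D j).LFun s ^ e j =
      exp ((e j : ℂ) * ex (fun p : Nat.Primes => ((p : ℕ) : ℝ)) (al (D j)) s) := fun j => by
    rw [LFun_exp (hD j) hs, ← Complex.exp_int_mul]
  rw [Finset.prod_congr rfl fun j _ => h1 j, ← Complex.exp_sum]
  congr 1
  unfold lser
  have e1 : ∀ j, (e j : ℂ) * ex (fun p : Nat.Primes => ((p : ℕ) : ℝ)) (al (D j)) s =
      ∑' y : Nat.Primes × ℕ, (e j : ℂ) *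
      ((∑ i, al (D j) y.1 i ^ (y.2 + 1)) / ((y.2 : ℂ) + 1) *
        cexp (-(s * LG (fun p : Nat.Primes => ((p : ℕ) : ℝ)) y))) := fun j => by
    unfold ex
    exact tsum_mul_left.symm
  rw [Finset.sum_congr rfl fun j _ => e1 j,
    ← Summable.tsum_finsetSum fun j _ => (ex_summ psP (al_norm (hD j)) hs).mul_left (e j : ℂ)]
  refine tsum_congr fun y => ?_
  have e2 : ((bb D e y.1 (y.2 + 1) / ((y.2 : ℝ) + 1) : ℝ) : ℂ) =
      (∑ j, (e j : ℂ) * ∑ i, al (D j) y.1 i ^ (y.2 + 1)) / ((y.2 : ℂ) + 1) := by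
    unfold bb
    rw [if_neg (Nat.succ_ne_zero _)]
    push_cast
    congr 1
    have h2 : ∑ j, (e j : ℂ) * ∑ i, al (D j) y.1 i ^ (y.2 + 1) = virtual D e y.1 (y.2 + 1) :=
      Finset.sum_congr rfl fun j _ => by rw [al_trace]
    rw [h2]
    refine Complex.ext ?_ ?_
    · exact Complex.ofReal_re _
    · rw [Complex.ofReal_im, hr y.1 y.2]
  rw [e2, Finset.sum_div, Finset.sum_mul]
  exact Finset.sum_congr rfl fun j _ => by ring

theorem int_iff {D : ι → Datum} {e : ι → ℤ} {σ τ r A : ℝ} (Z : Finset ℂ) (m : ℂ → ℤ) :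
    SquareIntegrable D e σ τ r A Z m ↔ Pool.Agent.Q245.Me.Eul.SquareIntegrable
      (fun p : Nat.Primes => ((p : ℕ) : ℝ)) (bb D e) σ τ r A Z m := by
  have h1 : ∀ y, productStar D e σ y = Pool.Agent.Q245.Me.Eul.pp
      (fun p : Nat.Primes => ((p : ℕ) : ℝ)) (bb D e) σ y := by
    intro y
    unfold productStar Pool.Agent.Q245.Me.Eul.pp bb
    simp only [Nat.succ_ne_zero, Nat.add_eq_zero_iff, one_ne_zero, and_false, if_false]
  unfold SquareIntegrable Pool.Agent.Q245.Me.Eul.SquareIntegrable deviation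
    Pool.Agent.Q245.Me.Eul.deviation
  simp only [h1]
  rfl

open scoped Classical in
/-- **The criterion for the meromorphic continuation of the `L`-functions of `GSp(2n)`.** -/
theorem result (ι : Type) [Fintype ι] (D : ι → Datum) (hD : ∀ j, (D j).Tempered) (e : ι → ℤ)
    (hreal : ∀ (p : Nat.Primes) (k : ℕ), (virtual D e p (k + 1)).im = 0)
    (σ τ : ℝ) (hσ : 1 / 2 ≤ σ) (hτ : σ ≤ τ) (hτ2 : τ < σ + 1 / 2) (r A : ℝ) (hA : 0 < A)
    (Z : Finset ℂ) (m : ℂ → ℤ) (hZ : Symmetric Z m) (hre : ∀ ρ ∈ Z, ρ.re ≤ σ + 1 / 2) :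
    (SquareIntegrable D e σ τ r A Z m ↔
      ∃ H : ℂ → ℂ, Hardy τ H ∧ Represents D e σ (continuation σ r A Z m H)) ∧
    (SquareIntegrable D e σ τ r A Z m → ∃ F : ℂ → ℂ, Represents D e σ F ∧
      ∀ s : ℂ, τ < s.re → MeromorphicAt F s ∧
        meromorphicOrderAt F s = ((if s ∈ Z then m s else 0 : ℤ) : WithTop ℤ)) := by
  obtain ⟨h1, h2⟩ := Pool.Agent.Q245.Me.Eul.criterion psP (bb_le hD e)
    (L := fun s => ∏ j, (D j).LFun s ^ e j) (fun s hs => prod_exp hD hreal hs) hσ hτ hτ2 r hA Z m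
    hZ hre
  rw [← int_iff Z m] at h1 h2
  refine ⟨?_, h2⟩
  rw [h1]
  refine exists_congr fun H => and_congr_left fun _ => ?_
  exact ⟨fun h => ⟨h.1, h.2, h.3⟩, fun h => ⟨h.1, h.2, h.3⟩⟩

end Pool.Agent.Results.MP_eea520_nt.MeromorphicHardy
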