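import Pool.Agent.Q12.GS.Defs
import Pool.Agent.Q12.NL.Br

/-!
# `L_S(s, π, ρ)` for every `ρ` and all `π` which are potentially abelian up to modular forms

Let `π` be an automorphic representation of `GSp(2n)` over `ℚ` whose Satake classes come from the Weil
group `W` of `ℚ` and from modular forms: there are a finite Galois extension `K'` of `ℚ`, two newforms `f` and
`g` with Satake classes `F_p` and `G_p` in `GL₂(ℂ)` (weights at least two, no complex
multiplication; or one, or none of them) and a homomorphism `Φ` of `W × C`, `C = GL₂(ℂ) × GL₂(ℂ)`, to the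
`L`-group, commutative on the Weil group `A` of `K'`, such that the Satake class of `π_p` is the class of
`Φ(Frob_p, (F_p, G_p))` for `p ∉ S`.

Then, for EVERY representation `ρ` of the `L`-group, `L_S(s, π, ρ)` is a finite product of integer powers
of basic `L`-functions, those of the representations `ψ ⊗ χ ⊗ σ` of `H × C` for groups `H`
between `A` and `W` with `H / A` nilpotent, where `χ` and `ψ` are characters of `H` and `σ` is an irreducible
representation of `C`.  The only ingredient which is not proved here is Brauer's theorem for the finite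
group `W / A`, in the form of a resolution `∑ n_i Ind ψ_i = 1` of its trivial representation
(`IsResolution`); if `W / A` is nilpotent, the resolution `Ind_W^W 1 = 1` will do, and all
exponents are equal to `1`.

Therefore `L_S(s, π, ρ)` has a meromorphic continuation if the basic `L`-functions have one
(`KnownContinuation`).  In the situation above the basic `L`-functions are the Rankin - Selberg
`L`-functions of `Sym^j f` and `ψ χ ⊗ Sym^k g` over the fields `K_H`, for which this is known if `K'` is totally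
real or a CM field, or nilpotent over `ℚ` (Newton and Thorne, Barnet-Lamb, Gee, Geraghty and Taylor, Arthur
and Clozel, Jacquet, Piatetski-Shapiro and Shalika).  The theorem also applies to other groups `C`, that is
to other families of automorphic forms.
-/

set_option autoImplicit false

namespace Pool.Agent.Results.MP_eea520_nt.PotentiallyAbelian

open Pool.Agent.Q12.GS Pool.Agent.Q12.NL Pool.Agent.Q63.FL

/-- The representation on `ℂ^m` given by a homomorphism to `GL_m(ℂ)`. -/
noncomputable def rep {m : ℕ} {X : Type} [Group X] (ψ : X →* GL (Fin m) ℂ) :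
    Representation ℂ X (Fin m → ℂ) :=
  (Matrix.toLinAlgEquiv' :
    Matrix (Fin m) (Fin m) ℂ ≃ₐ[ℂ] ((Fin m → ℂ) →ₗ[ℂ] (Fin m → ℂ))).toMulEquiv.toMonoidHom.comp
      ((Units.coeHom _).comp ψ)

/-- The `L`-function of the representation `ψ ⊗ U` of `H × C` over the field of `H`, where `(H, ψ, U)` is a
piece: `H` is a subgroup of `W`, `ψ` a character of `H` and `U` a subspace of `ℂ^m` (it is the
`L`-function of the representation of `W × C` induced by `ψ ⊗ U`), without the factors at `S`. -/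
noncomputable def LSub (D : Datum) {W C : Type} [Group W] [Group C] (Φ : W × C →* LG D.n)
    (fr : Nat.Primes → W) (sat : Nat.Primes → C) (x : Piece W (Fin D.m → ℂ)) (s : ℂ) : ℂ :=
  LP (fun p : {p : Nat.Primes // p ∉ D.S} => ((p.1 : ℕ) : ℝ)) (fun p => fr p.1) (fun p => sat p.1)
    (rep (D.ρ.comp (Φ.comp (MonoidHom.inl W C)))) (rep (D.ρ.comp (Φ.comp (MonoidHom.inr W C)))) x s

/-- The basic pieces `(H, ψ, U)`: `H` is a group between `A` and `W` with `H / A` nilpotent, `ψ` is a
character of `H / A` and `U` is a subspace of `ℂ^m` which is an irreducible representation of `H × C` on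
which `H` acts by scalars, that is `U = χ ⊗ σ` with a character `χ` of `H` and an irreducible
representation `σ` of `C`. -/
def IsBasic (D : Datum) {W C : Type} [Group W] [Group C] (A : Subgroup W) [A.Normal]
    (Φ : W × C →* LG D.n) (x : Piece W (Fin D.m → ℂ)) : Prop :=
  BasicP (rep (D.ρ.comp (Φ.comp (MonoidHom.inl W C)))) (rep (D.ρ.comp (Φ.comp (MonoidHom.inr W C)))) A x

/-- The known theorem: the `L`-functions of the basic pieces have a meromorphic continuation. -/
def KnownContinuation (D : Datum) {W C : Type} [Group W] [Group C] (A : Subgroup W) [A.Normal]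
    (Φ : W × C →* LG D.n) (fr : Nat.Primes → W) (sat : Nat.Primes → C) : Prop :=
  ∀ x, IsBasic D A Φ x → Continues (LSub D Φ fr sat x)

/-- **Factorization and meromorphic continuation for potentially abelian parameters, up to modular
forms.** -/
theorem result (D : Datum) {W C : Type} [Group W] [Group C] (A : Subgroup W) [A.Normal]
    [Finite (W ⧸ A)] {B : List (ℤ × Σ H : Subgroup W, (H →* ℂˣ))} (hB : IsResolution A B)
    (Φ : W × C →* LG D.n)
    (hA : ∀ a ∈ A, ∀ b ∈ A, Commute (Φ (a, 1)) (Φ (b, 1)))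
    (fr : Nat.Primes → W) (sat : Nat.Primes → C)
    (hsat : ∀ p : Nat.Primes, p ∉ D.S → IsConj (Φ (fr p, sat p)) (D.A p))
    (κ : ℝ) (hκ : ∀ p : Nat.Primes, p ∉ D.S → ∀ z : ℂ, (D.mat p).charpoly.IsRoot z →
      ‖z‖ ≤ ((p : ℕ) : ℝ) ^ κ)
    (hss : ∀ H, A ≤ H → ∀ U : Submodule ℂ (Fin D.m → ℂ),
      (∀ h ∈ H, ∀ k, ∀ u ∈ U, rep (D.ρ.comp Φ) (h, k) u ∈ U) →
      ∃ U' : Submodule ℂ (Fin D.m → ℂ), (∀ h ∈ H, ∀ k, ∀ u ∈ U', rep (D.ρ.comp Φ) (h, k) u ∈ U') ∧
        IsCompl U U') :
    (∃ l : List (ℤ × Piece W (Fin D.m → ℂ)), (∀ x ∈ l, x.1 ∈ B.map Prod.fst ∧ IsBasic D A Φ x.2) ∧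
      ∀ s : ℂ, κ + 1 < s.re → D.LFun s = (l.map fun x => LSub D Φ fr sat x.2 s ^ x.1).prod) ∧
    (KnownContinuation D A Φ fr sat → Continues D.LFun) := by
  classical
  set r := rep (D.ρ.comp (Φ.comp (MonoidHom.inl W C))) with hr
  set c := rep (D.ρ.comp (Φ.comp (MonoidHom.inr W C))) with hc
  have hmul : ∀ w k, r w * c k = rep (D.ρ.comp Φ) (w, k) := by
    intro w k
    have : (w, k) = (w, 1) * ((1, k) : W × C) := by simp
    rw [this, map_mul]
    rfl
  have hmul' : ∀ w k, c k * r w = rep (D.ρ.comp Φ) (w, k) := by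
    intro w k
    have : (w, k) = (1, k) * ((w, 1) : W × C) := by simp
    rw [this, map_mul]
    rfl
  have hcomm : ∀ w k, Commute (r w) (c k) := fun w k => (hmul w k).trans (hmul' w k).symm
  have hab : ∀ a ∈ A, ∀ b ∈ A, ∀ v, r a (r b v) = r b (r a v) := by
    intro a ha b hb v
    have h1 : r a * r b = r b * r a := by
      change rep (D.ρ.comp (Φ.comp (MonoidHom.inl W C))) a * rep (D.ρ.comp (Φ.comp (MonoidHom.inl W C))) b =
        rep (D.ρ.comp (Φ.comp (MonoidHom.inl W C))) b * rep (D.ρ.comp (Φ.comp (MonoidHom.inl W C))) a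
      have h2 := congrArg (fun x => rep D.ρ x) (hA a ha b hb).eq
      simp only [map_mul] at h2
      exact h2
    exact congrArg (fun f : Module.End ℂ (Fin D.m → ℂ) => f v) h1
  have hst : ∀ (H : Subgroup W) (U : Submodule ℂ (Fin D.m → ℂ)), Stable r c H U ↔
      ∀ h ∈ H, ∀ k, ∀ u ∈ U, rep (D.ρ.comp Φ) (h, k) u ∈ U := by
    intro H U
    constructor
    · rintro ⟨h1, h2⟩ w hw k u hu
      rw [← hmul]
      exact h1 w hw _ (h2 k u hu)
    · intro h
      exact ⟨fun w hw u hu => h w hw 1 u hu, fun k u hu => h 1 H.one_mem k u hu⟩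
  have hss' : ∀ H, A ≤ H → ∀ U, Stable r c H U → ∃ U', Stable r c H U' ∧ IsCompl U U' := by
    intro H hH U hU
    obtain ⟨U', h1, h2⟩ := hss H hH U ((hst H U).1 hU)
    exact ⟨U', (hst H U').2 h1, h2⟩
  -- the matrices
  have hconj : ∀ p : Nat.Primes, p ∉ D.S → ∃ P : (Matrix (Fin D.m) (Fin D.m) ℂ)ˣ,
      D.mat p = (P : Matrix (Fin D.m) (Fin D.m) ℂ) *
        (D.ρ (Φ (fr p, sat p)) : GL (Fin D.m) ℂ).1 * (P⁻¹ : (Matrix (Fin D.m) (Fin D.m) ℂ)ˣ).1 := by
    intro p hp
    obtain ⟨g, hg⟩ := isConj_iff.1 (hsat p hp)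
    refine ⟨D.ρ g, ?_⟩
    unfold Datum.mat
    rw [← hg, map_mul, map_mul, map_inv]
    rfl
  have hlin : ∀ p : Nat.Primes, (r (fr p) * c (sat p) : Module.End ℂ (Fin D.m → ℂ)) =
      Matrix.toLin' ((D.ρ (Φ (fr p, sat p)) : GL (Fin D.m) ℂ).1) := by
    intro p
    rw [hmul]
    rfl
  have hchar : ∀ p : Nat.Primes, p ∉ D.S →
      (r (fr p) * c (sat p) : Module.End ℂ (Fin D.m → ℂ)).charpoly = (D.mat p).charpoly := by
    intro p hp
    obtain ⟨P, hP⟩ := hconj p hp
    rw [hlin, Matrix.charpoly_toLin', hP, Matrix.coe_units_inv]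
    exact (Matrix.charpoly_units_conj P _).symm
  have hdet : ∀ p : Nat.Primes, p ∉ D.S → ∀ t : ℂ,
      LinearMap.det (1 - t • (r (fr p) * c (sat p) : Module.End ℂ (Fin D.m → ℂ))) =
        Matrix.det (1 - t • D.mat p) := by
    intro p hp t
    obtain ⟨P, hP⟩ := hconj p hp
    have h1 : (1 - t • (r (fr p) * c (sat p) : Module.End ℂ (Fin D.m → ℂ))) =
        Matrix.toLin' (1 - t • (D.ρ (Φ (fr p, sat p)) : GL (Fin D.m) ℂ).1) := by
      rw [hlin, map_sub, map_smul, Matrix.toLin'_one]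
      rfl
    rw [h1, LinearMap.det_toLin', hP]
    have h2 : (1 - t • ((P : Matrix (Fin D.m) (Fin D.m) ℂ) *
        (D.ρ (Φ (fr p, sat p)) : GL (Fin D.m) ℂ).1 * (P⁻¹ : (Matrix (Fin D.m) (Fin D.m) ℂ)ˣ).1)) =
        (P : Matrix (Fin D.m) (Fin D.m) ℂ) * (1 - t • (D.ρ (Φ (fr p, sat p)) : GL (Fin D.m) ℂ).1) *
          (P⁻¹ : (Matrix (Fin D.m) (Fin D.m) ℂ)ˣ).1 := by
      rw [mul_sub, sub_mul, mul_one, Units.mul_inv, mul_smul_comm, smul_mul_assoc]
    rw [h2]
    exact (Matrix.det_units_conj P _).symm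
  have hq : ∀ v : {p : Nat.Primes // p ∉ D.S}, (2 : ℝ) ≤ ((v.1 : ℕ) : ℝ) := by
    intro v
    exact_mod_cast v.1.2.two_le
  have hqs : ∀ σ : ℝ, 1 < σ →
      Summable fun v : {p : Nat.Primes // p ∉ D.S} => ((v.1 : ℕ) : ℝ) ^ (-σ) := by
    intro σ hσ
    exact (Nat.Primes.summable_rpow.2 (by linarith)).subtype _
  have hκ' : ∀ v : {p : Nat.Primes // p ∉ D.S}, ∀ μ,
      Module.End.HasEigenvalue (r (fr v.1) * c (sat v.1) : Module.End ℂ (Fin D.m → ℂ)) μ →
        ‖μ‖ ≤ ((v.1 : ℕ) : ℝ) ^ κ := by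
    intro v μ hμ
    rw [Module.End.hasEigenvalue_iff_isRoot_charpoly, hchar v.1 v.2] at hμ
    exact hκ v.1 v.2 μ hμ
  obtain ⟨l, hl, hsum⟩ := char_list hcomm hab hss' hB
  have hfac : ∀ s : ℂ, κ + 1 < s.re → D.LFun s = (l.map fun x => LSub D Φ fr sat x.2 s ^ x.1).prod := by
    intro s hs
    have h1 := (LP_list (q := fun v : {p : Nat.Primes // p ∉ D.S} => ((v.1 : ℕ) : ℝ))
      (fr := fun v => fr v.1) (sat := fun v => sat v.1) hcomm hq hqs hκ' (A := A) hs l
      (fun x hx => (hl x hx).2)).2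
    have h2 := LInd_top (fr := fun v : {p : Nat.Primes // p ∉ D.S} => fr v.1)
      (sat := fun v => sat v.1) hcomm hq hqs hκ' hs
    have h3 : D.LFun s = LInd (fun p : {p : Nat.Primes // p ∉ D.S} => ((p.1 : ℕ) : ℝ))
        (fun p => fr p.1) (fun p => sat p.1) r c ⊤ ⊤ s := by
      rw [h2]
      unfold Datum.LFun
      refine tprod_congr fun v => ?_
      rw [hdet v.1 v.2]
      norm_cast
    rw [h3]
    refine Eq.trans ?_ h1
    unfold LInd
    congr 1
    refine tsum_congr fun x => ?_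
    unfold tm
    dsimp only
    rw [indCh_top hcomm, hsum]
  refine ⟨⟨l, hl, hfac⟩, fun known => ?_⟩
  obtain ⟨F, hF, σ, hs⟩ := Continues.list (l := l.map fun x s => LSub D Φ fr sat x.2 s ^ x.1) (by
    intro L hL
    obtain ⟨x, hx, rfl⟩ := List.mem_map.1 hL
    exact (known x.2 (hl x hx).2).zpow x.1)
  refine ⟨F, hF, max σ (κ + 1), fun s hσ => ?_⟩
  rw [hs s (lt_of_le_of_lt (le_max_left _ _) hσ), hfac s (lt_of_le_of_lt (le_max_right _ _) hσ)]
  dsimp only
  rw [List.map_map]
  rfl

end Pool.Agent.Results.MP_eea520_nt.PotentiallyAbelian
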